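import Mathlib.Algebra.Notation.Lemmas
import Mathlib.Tactic.LinearCombination
import Mathlib.Combinatorics.SimpleGraph.CycleGraph
import Mathlib.RingTheory.SimpleRing.Principal

/-!
# Dense graphs without triangles and 4-cycles

Let `F` be a finite field of order `q = 25 v` with an additive splitting
`F = Z/5 × Z/5 × T`, written `x = (o x, c x, t x)`, and let `W = {o = 0}`.
Vertices: the points of `F × F` and the non-vertical lines `y = m x + b` whose slope `m` is not in
`W` or has class `c m ∈ {0, 3}`.  A point is joined to the lines through it, except that lines with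
slope in `W` of class `0` (resp. `3`) avoid the points of class `2` (resp. `1`).  A point `(x, y)`
of class `1` or `2` is also joined to the points of class `0, 3, 4` in the strip `x + W` lying on
the line through `(x, y)` whose slope is the `W`-component of `x`.
The graph has `1175 v ^ 2` vertices, `14250 v ^ 3` edges, no triangle and no 4-cycle.
-/

open Finset

namespace Pool.Agent.MP_1204ca_co

variable {F T : Type} [Field F] [AddCommGroup T] (e : F ≃+ (ZMod 5 × ZMod 5) × T)

/-- the strip of `x`. -/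
def oo (x : F) : ZMod 5 := (e x).1.1

/-- the class of `x`. -/
def cc (x : F) : ZMod 5 := (e x).1.2

/-- the `W`-component of `x`. -/
def ww (x : F) : F := e.symm ((0, (e x).1.2), (e x).2)

lemma oo_ww (x : F) : oo e (ww e x) = 0 := by simp [oo, ww]

lemma cc_ww (x : F) : cc e (ww e x) = cc e x := by simp [cc, ww]

lemma oo_add (x y : F) : oo e (x + y) = oo e x + oo e y := by simp [oo]

lemma oo_sub (x y : F) : oo e (x - y) = oo e x - oo e y := by simp [oo]

lemma cc_add (x y : F) : cc e (x + y) = cc e x + cc e y := by simp [cc]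

lemma cc_sub (x y : F) : cc e (x - y) = cc e x - cc e y := by simp [cc]

lemma ww_sub {x y : F} (h : oo e x = oo e y) : ww e x - ww e y = x - y := by
  apply e.injective
  simp only [oo] at h
  simp only [ww, map_sub, AddEquiv.apply_symm_apply]
  refine Prod.ext (Prod.ext ?_ rfl) rfl
  simp [h]

/-- classes of the sources. -/
def Src (c : ZMod 5) : Prop := c = 1 ∨ c = 2

instance : DecidablePred Src := fun c => inferInstanceAs (Decidable (c = 1 ∨ c = 2))

/-- slopes that are kept, in terms of strip and class. -/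
def Keep (u : ZMod 5 × ZMod 5) : Prop := u.1 ≠ 0 ∨ u.2 = 0 ∨ u.2 = 3

instance : DecidablePred Keep := fun u => inferInstanceAs (Decidable (u.1 ≠ 0 ∨ u.2 = 0 ∨ u.2 = 3))

/-- incidences that are kept: `u` describes the slope and `c` is the class of the point. -/
def Ok (u : ZMod 5 × ZMod 5) (c : ZMod 5) : Prop :=
  u.1 ≠ 0 ∨ (u.2 = 0 ∧ c ≠ 2) ∨ (u.2 = 3 ∧ c ≠ 1)

instance (u : ZMod 5 × ZMod 5) (c : ZMod 5) : Decidable (Ok u c) :=
  inferInstanceAs (Decidable (u.1 ≠ 0 ∨ (u.2 = 0 ∧ c ≠ 2) ∨ (u.2 = 3 ∧ c ≠ 1)))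

/-- the arcs from a source `p` to a sink `z`. -/
def Arc (p z : F × F) : Prop :=
  Src (cc e p.1) ∧ ¬ Src (cc e z.1) ∧ oo e p.1 = oo e z.1 ∧ z.2 - p.2 = ww e p.1 * (z.1 - p.1)

/-- the kept slopes. -/
abbrev Slope : Type := {m : F // Keep (e m).1}

/-- the kept incidences between points and lines. -/
def Inc (p : F × F) (l : Slope e × F) : Prop :=
  Ok (e l.1.1).1 (cc e p.1) ∧ p.2 = l.1.1 * p.1 + l.2

/-- the vertices. -/
abbrev Vx : Type := (F × F) ⊕ (Slope e × F)

/-- adjacency. -/
def Ad : Vx e → Vx e → Prop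
  | .inl p, .inl z => Arc e p z ∨ Arc e z p
  | .inl p, .inr l => Inc e p l
  | .inr l, .inl p => Inc e p l
  | .inr _, .inr _ => False

/-- the graph. -/
def Gr : SimpleGraph (Vx e) where
  Adj := Ad e
  symm := ⟨by
    rintro (p | l) (z | k) h
    · exact Or.symm h
    · exact h
    · exact h
    · exact h⟩
  loopless := ⟨by
    rintro (p | l) h
    · rcases h with h | h <;> exact h.2.1 h.1
    · exact h⟩

/-- two points of a kept line with different abscissae determine its slope. -/
lemma slope_eq {p z : F × F} {l : Slope e × F} (hp : Inc e p l) (hz : Inc e z l) {s : F}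
    (hx : p.1 ≠ z.1) (hs : z.2 - p.2 = s * (z.1 - p.1)) : l.1.1 = s := by
  have h1 : (l.1.1 - s) * (z.1 - p.1) = 0 := by
    rw [sub_mul, ← hs, hp.2, hz.2]; ring
  rcases mul_eq_zero.1 h1 with h | h
  · exact sub_eq_zero.1 h
  · exact absurd (sub_eq_zero.1 h).symm hx

/-- the slope of a source is not kept. -/
lemma not_keep {x : F} (hx : Src (cc e x)) : ¬ Keep (e (ww e x)).1 := by
  have h1 : (e (ww e x)).1.1 = 0 := oo_ww e x
  have h2 : (e (ww e x)).1.2 = cc e x := cc_ww e x
  unfold Keep
  rw [h1, h2]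
  revert hx
  generalize cc e x = c
  revert c
  decide

lemma arc_ne {p z : F × F} (h : Arc e p z) : p.1 ≠ z.1 := fun h' => h.2.1 (h' ▸ h.1)

lemma inc_eq {p z : F × F} {l : Slope e × F} (hp : Inc e p l) (hz : Inc e z l)
    (h : p.1 = z.1) : p = z :=
  Prod.ext h (by rw [hp.2, hz.2, h])

/-- no arc lies on a kept line. -/
lemma arc_inc {p z : F × F} {l : Slope e × F} (h : Arc e p z) (hp : Inc e p l)
    (hz : Inc e z l) : False := by
  have h1 := slope_eq e hp hz (arc_ne e h) h.2.2.2
  exact not_keep e h.1 (h1 ▸ l.1.2)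

/-- two out-neighbours of a source are not on a kept line. -/
lemma out_inc {p z z' : F × F} {l : Slope e × F} (h : Arc e p z) (h' : Arc e p z')
    (hz : Inc e z l) (hz' : Inc e z' l) : z = z' := by
  by_contra hne
  have hx : z.1 ≠ z'.1 := fun hx => hne (inc_eq e hz hz' hx)
  have h1 := slope_eq e hz hz' hx (s := ww e p.1) (by linear_combination h'.2.2.2 - h.2.2.2)
  exact not_keep e h.1 (h1 ▸ l.1.2)

lemma cls (c c' d : ZMod 5) (h : Src c) (h' : Src c') (hd : ¬ Src d)
    (k : Ok (0, c + c' - d) c) (k' : Ok (0, c + c' - d) c') : False := by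
  revert c c' d
  decide

/-- two in-neighbours of a sink are not both joined to a kept line. -/
lemma in_inc {p p' z : F × F} {l : Slope e × F} (h : Arc e p z) (h' : Arc e p' z)
    (hp : Inc e p l) (hp' : Inc e p' l) : p = p' := by
  by_contra hne
  have hx : p.1 ≠ p'.1 := fun hx => hne (inc_eq e hp hp' hx)
  have e1 := ww_sub e h.2.2.1
  have e2 := ww_sub e h'.2.2.1
  have h1 := slope_eq e hp hp' hx (s := ww e p.1 + ww e p'.1 - ww e z.1) (by
    have a1 := h.2.2.2
    have a2 := h'.2.2.2
    linear_combination a1 - a2 - ww e p'.1 * e1 + ww e p.1 * e2 - ww e z.1 * (e2 - e1))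
  have h2 : (e l.1.1).1 = (0, cc e p.1 + cc e p'.1 - cc e z.1) := by
    refine Prod.ext ?_ ?_
    · change oo e l.1.1 = 0
      rw [h1, oo_sub, oo_add, oo_ww, oo_ww, oo_ww]; simp
    · change cc e l.1.1 = _
      rw [h1, cc_sub, cc_add, cc_ww, cc_ww, cc_ww]
  exact cls _ _ _ h.1 h'.1 h.2.1 (h2 ▸ hp.1) (h2 ▸ hp'.1)

/-- two sources have at most one common out-neighbour. -/
lemma arc_four {p p' z z' : F × F} (h1 : Arc e p z) (h2 : Arc e p z') (h3 : Arc e p' z)
    (h4 : Arc e p' z') : p = p' ∨ z = z' := by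
  by_cases hx : z.1 = z'.1
  · right
    refine Prod.ext hx ?_
    have a1 := h1.2.2.2
    have a2 := h2.2.2.2
    rw [hx] at a1
    linear_combination a1 - a2
  · left
    have a0 : (ww e p.1 - ww e p'.1) * (z.1 - z'.1) = 0 := by
      linear_combination h2.2.2.2 - h1.2.2.2 + h3.2.2.2 - h4.2.2.2
    have a1 : ww e p.1 - ww e p'.1 = 0 := (mul_eq_zero.1 a0).resolve_right (sub_ne_zero.2 hx)
    have a2 : p.1 = p'.1 := by
      rw [ww_sub e (h1.2.2.1.trans h3.2.2.1.symm)] at a1
      exact sub_eq_zero.1 a1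
    refine Prod.ext a2 ?_
    have a3 := h1.2.2.2
    have a4 := h3.2.2.2
    rw [a2] at a3
    linear_combination a4 - a3

/-- two points are on at most one line. -/
lemma inc_four {p p' : F × F} {l l' : Slope e × F} (h1 : Inc e p l) (h2 : Inc e p l')
    (h3 : Inc e p' l) (h4 : Inc e p' l') : p = p' ∨ l = l' := by
  by_cases hx : p.1 = p'.1
  · exact Or.inl (inc_eq e h1 h3 hx)
  · right
    have a1 : l.1.1 = l'.1.1 := slope_eq e h1 h3 hx (by rw [h2.2, h4.2]; ring)
    refine Prod.ext (Subtype.ext a1) ?_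
    have a2 := h1.2
    rw [a1, h2.2] at a2
    linear_combination -a2

theorem no_three {a b c : Vx e} (h1 : Ad e a b) (h2 : Ad e b c) (h3 : Ad e c a) : False := by
  rcases a with a | a <;> rcases b with b | b <;> rcases c with c | c
  · rcases h1 with h1 | h1 <;> rcases h2 with h2 | h2 <;> rcases h3 with h3 | h3
    all_goals first
      | exact h1.2.1 h2.1 | exact h2.2.1 h3.1 | exact h3.2.1 h1.1
      | exact h2.2.1 h1.1 | exact h3.2.1 h2.1 | exact h1.2.1 h3.1
  · rcases h1 with h1 | h1
    · exact arc_inc e h1 h3 h2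
    · exact arc_inc e h1 h2 h3
  · rcases h3 with h3 | h3
    · exact arc_inc e h3 h2 h1
    · exact arc_inc e h3 h1 h2
  · exact h2
  · rcases h2 with h2 | h2
    · exact arc_inc e h2 h1 h3
    · exact arc_inc e h2 h3 h1
  · exact h3
  · exact h1
  · exact h1

/-- two points joined to a line have no common neighbour among the points. -/
lemma line_path {a b c : F × F} {l : Slope e × F} (h1 : Arc e a b ∨ Arc e b a)
    (h2 : Arc e b c ∨ Arc e c b) (ha : Inc e a l) (hc : Inc e c l) : a = c := by
  rcases h1 with h1 | h1 <;> rcases h2 with h2 | h2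
  · exact absurd h2.1 h1.2.1
  · exact in_inc e h1 h2 ha hc
  · exact out_inc e h1 h2 ha hc
  · exact absurd h1.1 h2.2.1

theorem no_four {a b c d : Vx e} (h1 : Ad e a b) (h2 : Ad e b c) (h3 : Ad e c d)
    (h4 : Ad e d a) : a = c ∨ b = d := by
  rcases a with a | a <;> rcases b with b | b <;> rcases c with c | c <;> rcases d with d | d
  · have key : a = c ∨ b = d := by
      rcases h1 with h1 | h1 <;> rcases h2 with h2 | h2 <;> rcases h3 with h3 | h3 <;>
        rcases h4 with h4 | h4
      all_goals first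
        | exact arc_four e h1 h4 h2 h3
        | exact (arc_four e h1 h2 h4 h3).symm
        | exact absurd h2.1 h1.2.1 | exact absurd h3.1 h2.2.1 | exact absurd h4.1 h3.2.1
        | exact absurd h1.1 h4.2.1 | exact absurd h1.1 h2.2.1 | exact absurd h2.1 h3.2.1
        | exact absurd h3.1 h4.2.1
    exact key.imp (congrArg _) (congrArg _)
  · exact Or.inl (congrArg _ (line_path e h1 h2 h4 h3))
  · exact Or.inr (congrArg _ (line_path e (Or.symm h1) (Or.symm h4) h2 h3))
  · exact h3.elim
  · exact Or.inl (congrArg _ (line_path e (Or.symm h4) (Or.symm h3) h1 h2))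
  · exact (inc_four e h1 h4 h2 h3).imp (congrArg _) (congrArg _)
  · exact h2.elim
  · exact h2.elim
  · exact Or.inr (congrArg _ (line_path e h2 h3 h1 h4))
  · exact h4.elim
  · exact (inc_four e h1 h2 h4 h3).symm.imp (congrArg _) (congrArg _)
  · exact h3.elim
  · exact h1.elim
  · exact h1.elim
  · exact h1.elim
  · exact h1.elim

theorem free_three : (SimpleGraph.cycleGraph 3).Free (Gr e) := by
  rintro ⟨f⟩
  exact no_three e (f.toHom.map_rel' (show (SimpleGraph.cycleGraph 3).Adj 0 1 by decide))
    (f.toHom.map_rel' (show (SimpleGraph.cycleGraph 3).Adj 1 2 by decide))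
    (f.toHom.map_rel' (show (SimpleGraph.cycleGraph 3).Adj 2 0 by decide))

theorem free_four : (SimpleGraph.cycleGraph 4).Free (Gr e) := by
  rintro ⟨f⟩
  rcases no_four e (f.toHom.map_rel' (show (SimpleGraph.cycleGraph 4).Adj 0 1 by decide))
    (f.toHom.map_rel' (show (SimpleGraph.cycleGraph 4).Adj 1 2 by decide))
    (f.toHom.map_rel' (show (SimpleGraph.cycleGraph 4).Adj 2 3 by decide))
    (f.toHom.map_rel' (show (SimpleGraph.cycleGraph 4).Adj 3 0 by decide)) with h | h
  · exact absurd (f.injective h) (by decide)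
  · exact absurd (f.injective h) (by decide)

end Pool.Agent.MP_1204ca_co
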