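import Mathlib.LinearAlgebra.FreeModule.PID
import Mathlib.RingTheory.Flat.TorsionFree
import Mathlib.RingTheory.PicardGroup
import Mathlib.FieldTheory.Finite.GaloisField
import Mathlib.Tactic.NormNum.Prime
import Mathlib.RingTheory.TotallySplit
import Mathlib.RingTheory.Henselian
import Mathlib.RingTheory.RegularLocalRing.Defs
import Pool.Agent.MP_1204ca_co.Graph

/-!
# The number of vertices and edges of the graph
-/

namespace Pool.Agent.MP_1204ca_co

variable {F T : Type} [Field F] [AddCommGroup T] (e : F ≃+ (ZMod 5 × ZMod 5) × T)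

include e in
lemma card_F : Nat.card F = 25 * Nat.card T := by
  rw [Nat.card_congr e.toEquiv]
  simp [Nat.card_prod]

lemma card_one (P : ZMod 5 × ZMod 5 → Prop) :
    Nat.card {x : F // P (e x).1} = Nat.card {u // P u} * Nat.card T := by
  rw [← Nat.card_prod]
  exact Nat.card_congr ((e.toEquiv.subtypeEquiv (q := fun s => P s.1) fun _ => Iff.rfl).trans
    Equiv.prodSubtypeFstEquivSubtypeProd)

lemma card_two (P : (ZMod 5 × ZMod 5) × (ZMod 5 × ZMod 5) → Prop) :
    Nat.card {x : F × F // P ((e x.1).1, (e x.2).1)} =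
      Nat.card {u // P u} * (Nat.card T * Nat.card T) := by
  rw [← Nat.card_prod, ← Nat.card_prod]
  exact Nat.card_congr ((((e.toEquiv.prodCongr e.toEquiv).trans
    (Equiv.prodProdProdComm _ _ _ _)).subtypeEquiv (q := fun s => P s.1) fun _ => Iff.rfl).trans
    Equiv.prodSubtypeFstEquivSubtypeProd)

lemma card_keep : Nat.card {u // Keep u} = 22 := by
  rw [Nat.card_eq_fintype_card]
  decide +kernel

/-- kept pairs (slope, abscissa), in terms of strips and classes. -/
def P1 (u : (ZMod 5 × ZMod 5) × (ZMod 5 × ZMod 5)) : Prop := Ok u.1 u.2.2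

instance : DecidablePred P1 := fun u => inferInstanceAs (Decidable (Ok u.1 u.2.2))

/-- pairs (abscissa of a source, abscissa of a sink in the same strip). -/
def P2 (u : (ZMod 5 × ZMod 5) × (ZMod 5 × ZMod 5)) : Prop :=
  Src u.1.2 ∧ ¬ Src u.2.2 ∧ u.1.1 = u.2.1

instance : DecidablePred P2 :=
  fun u => inferInstanceAs (Decidable (Src u.1.2 ∧ ¬ Src u.2.2 ∧ u.1.1 = u.2.1))

lemma card_P1 : Nat.card {u // P1 u} = 540 := by
  rw [Nat.card_eq_fintype_card]
  decide +kernel

lemma card_P2 : Nat.card {u // P2 u} = 30 := by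
  rw [Nat.card_eq_fintype_card]
  decide +kernel

theorem card_Vx [Finite F] : Nat.card (Vx e) = 1175 * Nat.card T ^ 2 := by
  rw [Nat.card_sum, Nat.card_prod, Nat.card_prod, card_one e Keep, card_keep, card_F e]
  ring

lemma keep_of_ok {u : ZMod 5 × ZMod 5} {c : ZMod 5} (h : Ok u c) : Keep u :=
  h.imp id (Or.imp And.left And.left)

/-- an index set for the edges. -/
abbrev Ed : Type :=
  ({x : F × F // P1 ((e x.1).1, (e x.2).1)} × F) ⊕ ({x : F × F // P2 ((e x.1).1, (e x.2).1)} × F)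

theorem card_Ed [Finite F] : Nat.card (Ed e) = 14250 * Nat.card T ^ 3 := by
  rw [Nat.card_sum, Nat.card_prod, Nat.card_prod, card_two e P1, card_two e P2, card_P1, card_P2,
    card_F e]
  ring

/-- the edge with a given index. -/
def edge : Ed e → (Gr e).edgeSet
  | .inl (x, b) => ⟨s(.inl (x.1.2, x.1.1 * x.1.2 + b), .inr (⟨x.1.1, keep_of_ok x.2⟩, b)),
      (SimpleGraph.mem_edgeSet _).2 ⟨x.2, rfl⟩⟩
  | .inr (x, y) => ⟨s(.inl (x.1.1, y), .inl (x.1.2, y + ww e x.1.1 * (x.1.2 - x.1.1))),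
      (SimpleGraph.mem_edgeSet _).2 (Or.inl ⟨x.2.1, x.2.2.1, x.2.2.2, add_sub_cancel_left _ _⟩)⟩

lemma edge_injective : Function.Injective (edge e) := by
  rintro (⟨⟨⟨m, x⟩, h⟩, b⟩ | ⟨⟨⟨x, z⟩, h⟩, y⟩) (⟨⟨⟨m', x'⟩, h'⟩, b'⟩ | ⟨⟨⟨x', z'⟩, h'⟩, y'⟩) he
  · have h1 := congrArg Subtype.val he
    simp only [edge, Sym2.eq_iff, Sum.inl.injEq, Sum.inr.injEq, Prod.mk.injEq, Subtype.mk.injEq,
      reduceCtorEq, false_and, or_false] at h1
    obtain ⟨⟨rfl, -⟩, rfl, rfl⟩ := h1
    rfl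
  · have h1 := congrArg Subtype.val he
    simp [edge] at h1
  · have h1 := congrArg Subtype.val he
    simp [edge] at h1
  · have h1 := congrArg Subtype.val he
    simp only [edge, Sym2.eq_iff, Sum.inl.injEq, Prod.mk.injEq] at h1
    rcases h1 with ⟨⟨rfl, rfl⟩, rfl, -⟩ | ⟨⟨rfl, -⟩, -⟩
    · rfl
    · exact absurd h.1 h'.2.1

theorem card_edge [Finite F] : 14250 * Nat.card T ^ 3 ≤ Nat.card (Gr e).edgeSet := by
  rw [← card_Ed e]
  exact Nat.card_le_card_of_injective _ (edge_injective e)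

/-- for every `j` there is a graph on `1175 * 25 ^ j` vertices with at least `14250 * 125 ^ j`
edges, without triangles and without 4-cycles. -/
theorem exists_graph (j : ℕ) : ∃ G : SimpleGraph (Fin (1175 * (5 ^ j) ^ 2)),
    (SimpleGraph.cycleGraph 3).Free G ∧ (SimpleGraph.cycleGraph 4).Free G ∧
      14250 * (5 ^ j) ^ 3 ≤ Nat.card G.edgeSet := by
  have : Fact (Nat.Prime 5) := ⟨by norm_num⟩
  have h1 : Module.finrank (ZMod 5) (GaloisField 5 (j + 2)) =
      Module.finrank (ZMod 5) ((ZMod 5 × ZMod 5) × (Fin j → ZMod 5)) := by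
    rw [GaloisField.finrank 5 (by omega)]
    simp [Module.finrank_prod]
    omega
  let e : GaloisField 5 (j + 2) ≃+ (ZMod 5 × ZMod 5) × (Fin j → ZMod 5) :=
    (LinearEquiv.ofFinrankEq _ _ h1).toAddEquiv
  have hT : Nat.card (Fin j → ZMod 5) = 5 ^ j := by simp
  have hV := card_Vx e
  have hE := card_edge e
  rw [hT] at hV hE
  let f : Vx e ≃ Fin (1175 * (5 ^ j) ^ 2) := Finite.equivFinOfCardEq hV
  let i := SimpleGraph.Iso.map f (Gr e)
  refine ⟨(Gr e).map f, ?_, ?_, ?_⟩
  · exact (SimpleGraph.free_congr_right i).1 (free_three e)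
  · exact (SimpleGraph.free_congr_right i).1 (free_four e)
  · rw [← Nat.card_congr i.mapEdgeSet]
    exact hE

end Pool.Agent.MP_1204ca_co
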